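import Pool.Agent.helper62.VN.SpecG

/-!
# Row GHF of project VN (MP_07c750_an): negatively curved flows are hyperbolic
-/

set_option autoImplicit false

open scoped MatrixGroups ContDiff Topology UpperHalfPlane
open UpperHalfPlane MeasureTheory Filter Set

namespace Pool.Agent.VNE

open Pool.Agent.RS Pool.Agent.VQE
open Pool.Agent.VQ (Dyn rho kap n1 n2 hess Ug TF)
open Pool.Agent.VN (PotN OKN Kg)

noncomputable section

theorem GHF_proof (h1 : GPH_stmt) (h2 : GF1_stmt) (h3 : GF2_stmt) (h4 : GFL_stmt) (h5 : GTD_stmt) : GHF_stmt := by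
  intro k hk
  obtain ⟨K0, hK0, H0⟩ := h1 k hk
  obtain ⟨K1, hK1, H1⟩ := h2 K0 hK0
  obtain ⟨K2, hK2, H2⟩ := h3 K0 hK0
  have hm1 : K1 ≤ max K1 K2 := le_max_left _ _
  have hm2 : K2 ≤ max K1 K2 := le_max_right _ _
  refine ⟨max K1 K2, hK0.trans (hK1.trans hm1), fun Γ B D hΓ hOK => ?_⟩
  obtain ⟨pa, qa, qd, HP⟩ := H0 Γ B D hOK.pot
  set K := max K1 K2 with hK
  have hK0' : K0 ≤ K := hK1.trans hm1
  have hKpos : 0 < K0 := by linarith
  have hi0 : 1 / K ≤ 1 / K0 := one_div_le_one_div_of_le hKpos hK0'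
  have hi1 : 1 / K ≤ 1 / K1 := one_div_le_one_div_of_le (by linarith) hm1
  have hi2 : 1 / K ≤ 1 / K2 := one_div_le_one_div_of_le (by linarith) hm2
  have hkk : 0 < k := hOK.pot.kpos.1
  refine ⟨?_, ?_, ?_, ?_, ?_, (fun t g => (h5 Γ k B D hOK t g).1), (fun t g => (h5 Γ k B D hOK t g).2), ?_, ?_⟩
  · exact (h4 Γ k B D hΓ hOK).2 0 (by rw [abs_zero]; exact hkk.le)
  · intro g
    have := HP.pb g
    exact ⟨hi0.trans this.1, this.2.trans hK0'⟩
  · intro g
    have := HP.qb g
    exact ⟨this.1.trans hK0', this.2.1.trans hK0', this.2.2.trans hK0'⟩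
  · intro g
    have := HP.kb g
    exact ⟨hi0.trans this.1, this.2.trans hK0'⟩
  · intro g E
    have := HP.lip g E
    have hn : K0 * nm E ≤ K * nm E := by
      refine mul_le_mul_of_nonneg_right hK0' ?_
      have h6 := (abs_nonneg _).trans this.1
      by_contra hc
      push Not at hc
      nlinarith
    exact ⟨this.1.trans hn, this.2.1.trans hn, this.2.2.1.trans hn, this.2.2.2.2.trans hn⟩
  · intro g J W J' W' hJ hJ'
    have := H1 (XD D) pa qa qd HP g J W J' W' (hJ.trans hi1) (hJ'.trans hi1)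
    have hn : K1 * (|J| + |W| + |J'| + |W'|) * (|J - J'| + |W - W'|) ≤ K * (|J| + |W| + |J'| + |W'|) * (|J - J'| + |W - W'|) := by
      have h6 : 0 ≤ |J| + |W| + |J'| + |W'| := by positivity
      have h7 : 0 ≤ |J - J'| + |W - W'| := by positivity
      exact mul_le_mul_of_nonneg_right (mul_le_mul_of_nonneg_right hm1 h6) h7
    exact ⟨this.1.trans hn, this.2.trans hn⟩
  · intro g E J W hJ
    have := H2 (XD D) pa qa qd HP g E J W (hJ.trans hi2)
    have hn0 : 0 ≤ nm E := by
      have h6 := (abs_nonneg _).trans (HP.lip g E).1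
      by_contra hc
      push Not at hc
      nlinarith
    have hn : K2 * nm E * (|J| + |W|) ≤ K * nm E * (|J| + |W|) := by
      have h6 : 0 ≤ |J| + |W| := by positivity
      exact mul_le_mul_of_nonneg_right (mul_le_mul_of_nonneg_right hm2 hn0) h6
    exact ⟨this.1.trans hn, this.2.trans hn⟩

end

end Pool.Agent.VNE
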